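import Pool.Agent.V11202.Rook.Inv

set_option linter.unusedSectionVars false

namespace Pool.Agent.V11202.Rook

open Finset

variable {ι : Type*} [Fintype ι] [DecidableEq ι] {β : ι → ℕ}

open Classical in
/-- forward types, with fuel -/
noncomputable def ft (β : ι → ℕ) (D : Finset (ι × ι)) : ℕ → ι → List ℕ
  | 0, _ => []
  | k + 1, x => if h : ∃ y, (x, y) ∈ D then β h.choose :: ft β D k h.choose else []

theorem ft_path {D : Finset (ι × ι)} (_hD : Rk β D) (k : ℕ) :
    ∀ (x : ι) (l : List ℕ), l <+: ft β D k x → Path β D l x := by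
  induction k with
  | zero =>
    intro x l h
    simp only [ft, List.prefix_nil] at h
    subst h; trivial
  | succ k ih =>
    intro x l h
    simp only [ft] at h
    split_ifs at h with hx
    · cases l with
      | nil => trivial
      | cons b l =>
        rw [List.cons_prefix_cons] at h
        exact ⟨hx.choose, hx.choose_spec, h.1.symm, ih _ _ h.2⟩
    · rw [List.prefix_nil] at h
      subst h; trivial

theorem path_ft {D : Finset (ι × ι)} (hD : Rk β D) (k : ℕ) :
    ∀ (x : ι) (l : List ℕ), l.length ≤ k → Path β D l x → l <+: ft β D k x := by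
  induction k with
  | zero =>
    intro x l hl _
    have : l = [] := List.length_eq_zero_iff.1 (by omega)
    subst this; exact List.nil_prefix
  | succ k ih =>
    intro x l hl h
    cases l with
    | nil => exact List.nil_prefix
    | cons b l =>
      obtain ⟨y, hxy, hyb, hP⟩ := h
      have hx : ∃ y, (x, y) ∈ D := ⟨y, hxy⟩
      simp only [ft]
      rw [dif_pos hx]
      have : hx.choose = y := hD.row x _ _ hx.choose_spec hxy
      rw [this, List.cons_prefix_cons]
      exact ⟨hyb.symm, ih y l (by simpa using hl) hP⟩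

theorem path_mem {D : Finset (ι × ι)} (l : List ℕ) :
    ∀ x, Path β D l x → ∀ b ∈ l, b ∈ Finset.univ.image β := by
  induction l with
  | nil => intro x _ b hb; simp at hb
  | cons c l ih =>
    rintro x ⟨y, _, hyb, hP⟩ b hb
    rcases List.mem_cons.1 hb with rfl | hb
    · exact Finset.mem_image.2 ⟨y, Finset.mem_univ _, hyb⟩
    · exact ih y hP b hb

theorem path_length {D : Finset (ι × ι)} (hD : Rk β D) (l : List ℕ) (x : ι)
    (h : Path β D l x) : l.length ≤ Fintype.card ι := by
  have h1 := path_chain hD l x h
  have h2 : List.Pairwise (· < ·) (β x :: l) := List.isChain_iff_pairwise.1 h1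
  have h3 : l.Nodup := by
    have := (List.pairwise_cons.1 h2).2
    exact this.imp fun h => ne_of_lt h
  have h4 : l.toFinset ⊆ Finset.univ.image β := by
    intro b hb
    exact path_mem l x h b (List.mem_toFinset.1 hb)
  calc l.length = l.toFinset.card := (List.toFinset_card_of_nodup h3).symm
    _ ≤ (Finset.univ.image β).card := Finset.card_le_card h4
    _ ≤ Fintype.card ι := Finset.card_image_le

noncomputable def fwd (β : ι → ℕ) (D : Finset (ι × ι)) (x : ι) : List ℕ :=
  ft β D (Fintype.card ι) x

theorem fwd_iff {D : Finset (ι × ι)} (hD : Rk β D) (x : ι) (l : List ℕ) :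
    l <+: fwd β D x ↔ Path β D l x :=
  ⟨ft_path hD _ x l, fun h => path_ft hD _ x l (path_length hD l x h) h⟩

theorem eq_of_prefix {a b : List ℕ} (h : ∀ l, l <+: a ↔ l <+: b) : a = b := by
  have h1 := (h a).1 (List.prefix_rfl)
  have h2 := (h b).2 (List.prefix_rfl)
  exact h1.eq_of_length_le h2.length_le

theorem fwd_cons {D : Finset (ι × ι)} (hD : Rk β D) {x y : ι} (h : (x, y) ∈ D) :
    fwd β D x = β y :: fwd β D y := by
  apply eq_of_prefix
  intro l
  cases l with
  | nil => simp
  | cons b l =>
    rw [fwd_iff hD, List.cons_prefix_cons, fwd_iff hD]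
    constructor
    · rintro ⟨z, hz, hzb, hP⟩
      have := hD.row x z y hz h
      subst this
      exact ⟨hzb.symm, hP⟩
    · rintro ⟨hb, hP⟩
      exact ⟨y, h, hb.symm, hP⟩

/-- full types -/
noncomputable def typ (β : ι → ℕ) (D : Finset (ι × ι)) (x : ι) : ℕ × List ℕ := (β x, fwd β D x)

open Classical in
theorem card_typ {D D' : Finset (ι × ι)} (hD : Rk β D) (hD' : Rk β D')
    (hc : ∀ j l, (Finset.univ.filter fun x => β x = j ∧ Path β D l x).card =
      (Finset.univ.filter fun x => β x = j ∧ Path β D' l x).card) (t : ℕ × List ℕ) :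
    (Finset.univ.filter fun x => typ β D x = t).card =
      (Finset.univ.filter fun x => typ β D' x = t).card := by
  obtain ⟨j, l⟩ := t
  have key : ∀ {D : Finset (ι × ι)}, Rk β D →
      (Finset.univ.filter fun x => β x = j ∧ Path β D l x).card =
        (Finset.univ.filter fun x => typ β D x = (j, l)).card +
        ∑ b ∈ Finset.univ.image β,
          (Finset.univ.filter fun x => β x = j ∧ Path β D (l ++ [b]) x).card := by
    intro D hD
    rw [← Finset.card_biUnion, ← Finset.card_union_of_disjoint]
    · congr 1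
      ext x
      simp only [Finset.mem_filter, Finset.mem_univ, true_and, Finset.mem_union,
        Finset.mem_biUnion, typ, Prod.mk.injEq]
      rw [← fwd_iff hD]
      constructor
      · rintro ⟨h1, h2⟩
        obtain ⟨m, hm⟩ := h2
        cases m with
        | nil => left; exact ⟨h1, by rw [← hm, List.append_nil]⟩
        | cons b m =>
          right
          have hpre : l ++ [b] <+: fwd β D x := ⟨m, by rw [← hm]; simp⟩
          refine ⟨b, ?_, h1, (fwd_iff hD x _).1 hpre⟩
          exact path_mem _ x ((fwd_iff hD x _).1 hpre) b (by simp)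
      · rintro (⟨h1, h2⟩ | ⟨b, _, h1, h2⟩)
        · exact ⟨h1, h2 ▸ List.prefix_rfl⟩
        · refine ⟨h1, ?_⟩
          rw [← fwd_iff hD] at h2
          exact (List.prefix_append l [b]).trans h2
    · rw [Finset.disjoint_left]
      intro x hx hx'
      simp only [Finset.mem_filter, Finset.mem_univ, true_and, typ, Prod.mk.injEq,
        Finset.mem_biUnion] at hx hx'
      obtain ⟨b, _, _, h2⟩ := hx'
      rw [← fwd_iff hD, hx.2] at h2
      have := h2.length_le
      simp at this
    · intro b _ b' _ hne
      rw [Function.onFun, Finset.disjoint_left]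
      intro x hx hx'
      simp only [Finset.mem_filter, Finset.mem_univ, true_and] at hx hx'
      have h1 := (fwd_iff hD x _).2 hx.2
      have h2 := (fwd_iff hD x _).2 hx'.2
      have h3 := List.prefix_of_prefix_length_le h1 h2 (by simp)
      rw [List.prefix_append_right_inj] at h3
      exact hne (by simpa using h3)
  have k1 := key hD
  have k2 := key hD'
  have k3 : ∑ b ∈ Finset.univ.image β,
          (Finset.univ.filter fun x => β x = j ∧ Path β D (l ++ [b]) x).card =
      ∑ b ∈ Finset.univ.image β,
          (Finset.univ.filter fun x => β x = j ∧ Path β D' (l ++ [b]) x).card :=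
    Finset.sum_congr rfl fun b _ => hc j _
  have k4 := hc j l
  omega

open Classical in
theorem exists_equiv {α α' γ : Type*} [Fintype α] [Fintype α'] (f : α → γ) (g : α' → γ)
    (h : ∀ c, (Finset.univ.filter fun x => f x = c).card =
      (Finset.univ.filter fun x => g x = c).card) :
    ∃ e : α ≃ α', ∀ x, g (e x) = f x := by
  have : ∀ c, Nonempty ({ a // f a = c } ≃ { b // g b = c }) := by
    intro c
    rw [← Fintype.card_eq, Fintype.card_subtype, Fintype.card_subtype]
    exact h c
  exact ⟨Equiv.ofFiberEquiv fun c => (this c).some, fun x => Equiv.ofFiberEquiv_map _ x⟩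

open Classical in
theorem exists_ext {α γ : Type*} [Fintype α] (t : α → γ) (A : Set α) (ψ : α → α)
    (hinj : Set.InjOn ψ A) (ht : ∀ x ∈ A, t (ψ x) = t x) :
    ∃ π : Equiv.Perm α, (∀ x ∈ A, π x = ψ x) ∧ ∀ x, t (π x) = t x := by
  obtain ⟨e, he⟩ := exists_equiv (α := {x // x ∉ A}) (α' := {y // y ∉ ψ '' A})
    (fun x => t x) (fun y => t y) (by
      intro c
      have e1 : (Finset.univ.filter fun x : {x // x ∉ A} => t x = c).card =
          (Finset.univ.filter fun x : α => t x = c ∧ x ∉ A).card := by
        refine Finset.card_bij (fun x _ => x.1) ?_ ?_ ?_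
        · intro x hx; simp only [Finset.mem_filter, Finset.mem_univ, true_and] at hx ⊢
          exact ⟨hx, x.2⟩
        · intro x _ y _ h; exact Subtype.ext h
        · intro x hx; simp only [Finset.mem_filter, Finset.mem_univ, true_and] at hx
          exact ⟨⟨x, hx.2⟩, by simp [hx.1], rfl⟩
      have e2 : (Finset.univ.filter fun x : {x // x ∉ ψ '' A} => t x = c).card =
          (Finset.univ.filter fun x : α => t x = c ∧ x ∉ ψ '' A).card := by
        refine Finset.card_bij (fun x _ => x.1) ?_ ?_ ?_
        · intro x hx; simp only [Finset.mem_filter, Finset.mem_univ, true_and] at hx ⊢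
          exact ⟨hx, x.2⟩
        · intro x _ y _ h; exact Subtype.ext h
        · intro x hx; simp only [Finset.mem_filter, Finset.mem_univ, true_and] at hx
          exact ⟨⟨x, hx.2⟩, by simp [hx.1], rfl⟩
      have e3 : (Finset.univ.filter fun x : α => t x = c ∧ x ∈ A).card =
          (Finset.univ.filter fun x : α => t x = c ∧ x ∈ ψ '' A).card := by
        refine Finset.card_bij (fun x _ => ψ x) ?_ ?_ ?_
        · intro x hx; simp only [Finset.mem_filter, Finset.mem_univ, true_and] at hx ⊢
          exact ⟨(ht x hx.2).trans hx.1, x, hx.2, rfl⟩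
        · intro x hx y hy h
          simp only [Finset.mem_filter, Finset.mem_univ, true_and] at hx hy
          exact hinj hx.2 hy.2 h
        · intro y hy; simp only [Finset.mem_filter, Finset.mem_univ, true_and] at hy
          obtain ⟨h1, x, hx, rfl⟩ := hy
          exact ⟨x, by simp [hx, ← h1, ht x hx], rfl⟩
      have e4 := Finset.card_filter_add_card_filter_not
        (s := Finset.univ.filter fun x : α => t x = c) (fun x => x ∈ A)
      have e5 := Finset.card_filter_add_card_filter_not
        (s := Finset.univ.filter fun x : α => t x = c) (fun x => x ∈ ψ '' A)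
      rw [Finset.filter_filter, Finset.filter_filter] at e4 e5
      rw [e1, e2]
      omega)
  let f : α → α := fun x => if h : x ∈ A then ψ x else (e ⟨x, h⟩ : α)
  have hf : Function.Injective f := by
    intro x y hxy
    simp only [f] at hxy
    split_ifs at hxy with hx hy hy
    · exact hinj hx hy hxy
    · exact absurd ⟨x, hx, hxy⟩ (e ⟨y, hy⟩).2
    · exact absurd ⟨y, hy, hxy.symm⟩ (e ⟨x, hx⟩).2
    · have := e.injective (Subtype.ext hxy)
      exact congrArg Subtype.val this
  refine ⟨Equiv.ofBijective f (Finite.injective_iff_bijective.1 hf), ?_, ?_⟩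
  · intro x hx
    simp [f, hx]
  · intro x
    simp only [Equiv.ofBijective_apply, f]
    split_ifs with hx
    · exact ht x hx
    · exact he ⟨x, hx⟩

theorem exists_perm {D D' : Finset (ι × ι)} (hD : Rk β D) (hD' : Rk β D')
    (w0 : Equiv.Perm ι) (hw0 : ∀ x, typ β D' (w0 x) = typ β D x) (k : ℕ) :
    ∃ w : Equiv.Perm ι, (∀ x, typ β D' (w x) = typ β D x) ∧
      ∀ x y, (x, y) ∈ D → β y < k → (w x, w y) ∈ D' := by
  classical
  induction k with
  | zero => exact ⟨w0, hw0, fun x y _ h => absurd h (by omega)⟩
  | succ k ih =>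
    obtain ⟨w, hw, hedge⟩ := ih
    -- successor in `D'`
    have hsucc : ∀ x y, (x, y) ∈ D → ∃ y', (w x, y') ∈ D' ∧ typ β D' y' = typ β D y := by
      intro x y hxy
      have h1 := fwd_cons hD hxy
      have h2 : fwd β D' (w x) = β y :: fwd β D y := by
        rw [← h1]; exact congrArg Prod.snd (hw x)
      have h3 : Path β D' [β y] (w x) := by
        rw [← fwd_iff hD', h2]; simp
      obtain ⟨y', hy', hb, _⟩ := h3
      refine ⟨y', hy', ?_⟩
      have h4 := fwd_cons hD' hy'
      rw [h2] at h4
      simp only [typ, hb]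
      rw [(List.cons.inj h4).2]
    let ψ : ι → ι := fun y => if h : β y = k ∧ ∃ x, (x, y) ∈ D then
      w.symm (hsucc h.2.choose y h.2.choose_spec).choose else y
    have hψ : ∀ y, β y = k → (h : ∃ x, (x, y) ∈ D) → (w h.choose, w (ψ y)) ∈ D' ∧
        typ β D (ψ y) = typ β D y := by
      intro y hy h
      have h' : β y = k ∧ ∃ x, (x, y) ∈ D := ⟨hy, h⟩
      have hs := (hsucc h.choose y h.choose_spec).choose_spec
      have e : ψ y = w.symm (hsucc h.choose y h.choose_spec).choose := by
        simp only [ψ]; rw [dif_pos h']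
      rw [e, Equiv.apply_symm_apply]
      refine ⟨hs.1, ?_⟩
      rw [← hw, Equiv.apply_symm_apply]
      exact hs.2
    let A : Set ι := {y | β y = k → ∃ x, (x, y) ∈ D}
    have hψ2 : ∀ y, β y ≠ k → ψ y = y := by
      intro y hy
      simp only [ψ]; rw [dif_neg]; rintro ⟨h, _⟩; exact hy h
    obtain ⟨π, hπ1, hπ2⟩ := exists_ext (typ β D) A ψ (by
      intro y1 h1 y2 h2 heq
      by_cases k1 : β y1 = k
      · by_cases k2 : β y2 = k
        · have a1 := hψ y1 k1 (h1 k1)
          have a2 := hψ y2 k2 (h2 k2)
          rw [heq] at a1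
          have b1 := hD'.col _ _ _ a1.1 a2.1
          have b2 := w.injective b1
          have c1 := (h1 k1).choose_spec
          have c2 := (h2 k2).choose_spec
          rw [b2] at c1
          exact hD.row _ _ _ c1 c2
        · exfalso
          have a1 := hψ y1 k1 (h1 k1)
          rw [heq, hψ2 y2 k2] at a1
          exact k2 ((congrArg Prod.fst a1.2).trans k1)
      · by_cases k2 : β y2 = k
        · exfalso
          have a2 := hψ y2 k2 (h2 k2)
          rw [← heq, hψ2 y1 k1] at a2
          exact k1 ((congrArg Prod.fst a2.2).trans k2)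
        · rw [hψ2 y1 k1, hψ2 y2 k2] at heq
          exact heq) (by
      intro y hy
      by_cases k1 : β y = k
      · exact (hψ y k1 (hy k1)).2
      · rw [hψ2 y k1])
    refine ⟨π.trans w, ?_, ?_⟩
    · intro x
      rw [Equiv.trans_apply, hw, hπ2]
    · intro x y hxy hlt
      rw [Equiv.trans_apply, Equiv.trans_apply]
      have hx : β x ≠ k := by
        have := hD.lt x y hxy
        omega
      have e1 : π x = x := by
        rw [hπ1 x (fun h => absurd h hx), hψ2 x hx]
      rw [e1]
      by_cases hy : β y = k
      · have hyA : y ∈ A := fun _ => ⟨x, hxy⟩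
        rw [hπ1 y hyA]
        have := hψ y hy ⟨x, hxy⟩
        have e2 : (⟨x, hxy⟩ : ∃ x, (x, y) ∈ D).choose = x :=
          hD.col _ _ _ (Exists.choose_spec (⟨x, hxy⟩ : ∃ x, (x, y) ∈ D)) hxy
        rw [e2] at this
        exact this.1
      · have e2 : π y = y := by
          rw [hπ1 y (fun h => absurd h hy), hψ2 y hy]
        rw [e2]
        exact hedge x y hxy (by omega)

theorem exists_conj {D D' : Finset (ι × ι)} (hD : Rk β D) (hD' : Rk β D')
    {F : Type*} [Field F] (hE : E β (LD F D) (LD F D')) :
    ∃ w : Equiv.Perm ι, (∀ x, β (w x) = β x) ∧ ∀ x y, (x, y) ∈ D ↔ (w x, w y) ∈ D' := by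
  classical
  have hc := fun j l => card_path hD hD' hE j l
  obtain ⟨w0, hw0⟩ := exists_equiv (typ β D) (typ β D')
    (fun t => by convert card_typ hD hD' (fun j l => by convert hc j l) t)
  obtain ⟨w, hw, hedge⟩ := exists_perm hD hD' w0 hw0 ((Finset.univ.sup β) + 1)
  have hedge' : ∀ x y, (x, y) ∈ D → (w x, w y) ∈ D' := fun x y h => hedge x y h (by
    have := Finset.le_sup (f := β) (Finset.mem_univ y)
    omega)
  refine ⟨w, fun x => congrArg Prod.fst (hw x), fun x y => ⟨hedge' x y, fun h => ?_⟩⟩
  have h1 := fwd_cons hD' h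
  have h2 : fwd β D x = β (w y) :: fwd β D' (w y) := by
    rw [← h1]; exact (congrArg Prod.snd (hw x)).symm
  have h3 : Path β D [β (w y)] x := by
    rw [← fwd_iff hD, h2]; simp
  obtain ⟨y', hy', _, _⟩ := h3
  have h4 := hedge' x y' hy'
  have h5 := hD'.row _ _ _ h4 h
  rw [w.injective h5] at hy'
  exact hy'

end Pool.Agent.V11202.Rook
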