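import Pool.Agent.V11202.Rook.Core

set_option linter.unusedSectionVars false

namespace Pool.Agent.V11202.Rook

open Matrix Finset

variable {ι : Type*} [Fintype ι] [DecidableEq ι] {B : Type*} [LinearOrder B] {F : Type*} [Field F]
variable {β : ι → B}

/-- scaling -/
theorem E.scale {L : Matrix ι ι F} (d : ι → F) (hd : ∀ i, d i ≠ 0) :
    E β L (diagonal d * L * diagonal (fun i => (d i)⁻¹)) := by
  refine ⟨diagonal d, diagonal fun i => (d i)⁻¹, ?_, ?_, ?_, by simpa using Up.zero⟩
  · intro i j hij
    have : i ≠ j := by rintro rfl; exact lt_irrefl _ hij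
    simp [this]
  · intro i j hij
    have : i ≠ j := by rintro rfl; exact lt_irrefl _ hij
    simp [this]
  · have : diagonal d * diagonal (fun i => (d i)⁻¹) = (1 : Matrix ι ι F) := by
      rw [diagonal_mul_diagonal]
      have : (fun i => d i * (d i)⁻¹) = fun _ => (1 : F) := by
        funext i; exact mul_inv_cancel₀ (hd i)
      rw [this, diagonal_one]
    rw [this, sub_self]
    exact SUp.zero

/-- the matrix with column `p` equal to `x` and zero elsewhere -/
def colM (p : ι) (x : ι → F) : Matrix ι ι F := Matrix.of fun i j => if j = p then x i else 0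

theorem colM_sq {p : ι} {x : ι → F} (hx : x p = 0) : colM p x * colM p x = 0 := by
  ext i j
  rw [Matrix.mul_apply]
  simp only [colM, Matrix.of_apply, Matrix.zero_apply]
  refine Finset.sum_eq_zero fun k _ => ?_
  by_cases h : k = p
  · subst h; simp [hx]
  · simp [h]

theorem E.clear {L : Matrix ι ι F} {p : ι} {x : ι → F} (hx : x p = 0)
    (hle : ∀ u, x u ≠ 0 → β u ≤ β p) :
    E β L ((1 - colM p x) * L * (1 + colM p x)) := by
  have hU : Up β (colM p x) := by
    intro i j hij
    simp only [colM, Matrix.of_apply]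
    split_ifs with h
    · subst h
      by_contra hne
      exact absurd (hle i hne) (not_le.2 hij)
    · rfl
  refine ⟨1 - colM p x, 1 + colM p x, Up.one.sub hU, Up.one.add hU, ?_, by simpa using Up.zero⟩
  have : (1 - colM p x) * (1 + colM p x) - 1 = -(colM p x * colM p x) := by noncomm_ring
  rw [this, colM_sq hx, neg_zero]
  exact SUp.zero

theorem clear_apply (L : Matrix ι ι F) (p : ι) (x : ι → F) (j i : ι) :
    ((1 - colM p x) * L * (1 + colM p x)) j i =
      L j i - x j * L p i + if i = p then ∑ k, (L j k - x j * L p k) * x k else 0 := by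
  have h1 : ∀ i, ((1 - colM p x) * L) j i = L j i - x j * L p i := by
    intro i
    rw [Matrix.sub_mul, Matrix.one_mul, Matrix.sub_apply, Matrix.mul_apply]
    simp [colM]
  rw [Matrix.mul_add, Matrix.mul_one, Matrix.add_apply, h1, Matrix.mul_apply]
  congr 1
  simp only [h1]
  simp only [colM, Matrix.of_apply]
  split_ifs with h
  · rfl
  · simp

/-- a partially processed matrix -/
structure St (β : ι → B) (L : Matrix ι ι F) (C : Finset ι) : Prop where
  closed : ∀ c ∈ C, ∀ i, β i < β c → i ∈ C
  clean : ∀ i ∈ C, Clean β L i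

theorem stepA {L : Matrix ι ι F} {C : Finset ι} (hS : St β L C) {c p : ι} (hc : c ∉ C)
    (hcp : β c < β p) (hne : L p c ≠ 0) :
    ∃ L1 : Matrix ι ι F, E β L L1 ∧ L1 p c = 1 ∧ (∀ j, L j c = 0 → L1 j c = 0) ∧
      (∀ i ∈ C, ∀ j, β i < β j → L1 j i = L j i) ∧
      (∀ i ∈ C, ∀ q, Piv β L q i → Piv β L1 q i) := by
  have hpC : ∀ x, β c < β x → x ∉ C := fun x hx hxC => hc (hS.closed x hxC c hx)
  have hcpne : c ≠ p := by rintro rfl; exact lt_irrefl _ hcp
  -- `L p i = 0` for `i ∈ C`
  have hrow : ∀ i ∈ C, β i < β p → L p i = 0 := by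
    intro i hi hip
    rcases hS.clean i hi with h | ⟨q, hq⟩
    · exact h p hip
    · by_cases hqp : q = p
      · subst hqp
        exfalso
        exact hne (hq.2.2.1 c (by rintro rfl; exact hc hi) hcp)
      · exact hq.2.2.2 p (Ne.symm hqp) hip
  set d : ι → F := fun i => if i = p then (L p c)⁻¹ else 1 with hd
  have hd0 : ∀ i, d i ≠ 0 := by
    intro i; simp only [hd]; split_ifs
    · exact inv_ne_zero hne
    · exact one_ne_zero
  have happ : ∀ j i, (diagonal d * L * diagonal (fun i => (d i)⁻¹)) j i = d j * L j i * (d i)⁻¹ := by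
    intro j i
    rw [Matrix.mul_diagonal, Matrix.diagonal_mul]
  refine ⟨_, E.scale d hd0, ?_, ?_, ?_, ?_⟩
  · rw [happ]
    simp [hd, hcpne, hne]
  · intro j hj; rw [happ, hj]; simp
  · intro i hi j hij
    rw [happ]
    have hip : i ≠ p := by
      rintro rfl; exact hpC i hcp hi
    by_cases hjp : j = p
    · subst hjp; rw [hrow i hi hij]; simp
    · simp [hd, hip, hjp]
  · intro i hi q hq
    refine ⟨hq.1, ?_, ?_, ?_⟩
    · rw [happ, hq.2.1]
      have hip : i ≠ p := by rintro rfl; exact hpC i hcp hi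
      have hqp : q ≠ p := by
        rintro rfl
        exact hne (hq.2.2.1 c (by rintro rfl; exact hc hi) hcp)
      simp [hd, hip, hqp]
    · intro i' hi' hlt
      rw [happ, hq.2.2.1 i' hi' hlt]; simp
    · intro j hj hlt
      rw [happ, hq.2.2.2 j hj hlt]; simp

theorem stepB {L : Matrix ι ι F} {C : Finset ι} (hS : St β L C) {c p : ι} (hc : c ∉ C)
    (hcp : β c < β p) (h1 : L p c = 1) (hmax : ∀ j, L j c ≠ 0 → β c < β j → β j ≤ β p)
    (hCle : ∀ i ∈ C, β i ≤ β c) :
    ∃ L2 : Matrix ι ι F, E β L L2 ∧ L2 p c = 1 ∧ (∀ j, j ≠ p → β c < β j → L2 j c = 0) ∧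
      (∀ i ∈ C, ∀ j, β i < β j → L2 j i = L j i) ∧
      (∀ i ∈ C, ∀ q, Piv β L q i → Piv β L2 q i) ∧ (∀ i ∈ C, β i < β p → L2 p i = 0) := by
  have hne : L p c ≠ 0 := by rw [h1]; exact one_ne_zero
  have hpC : ∀ x, β c < β x → x ∉ C := fun x hx hxC => hc (hS.closed x hxC c hx)
  have hcpne : c ≠ p := by rintro rfl; exact lt_irrefl _ hcp
  have hrow : ∀ i ∈ C, β i < β p → L p i = 0 := by
    intro i hi hip
    rcases hS.clean i hi with h | ⟨q, hq⟩
    · exact h p hip
    · by_cases hqp : q = p
      · subst hqp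
        exfalso
        exact hne (hq.2.2.1 c (by rintro rfl; exact hc hi) hcp)
      · exact hq.2.2.2 p (Ne.symm hqp) hip
  set x : ι → F := fun u => if β c < β u ∧ u ≠ p then L u c else 0 with hx
  have hxp : x p = 0 := by simp [hx]
  have hxu : ∀ u, x u ≠ 0 → β c < β u ∧ L u c ≠ 0 := by
    intro u hu
    simp only [hx] at hu
    split_ifs at hu with h
    · exact ⟨h.1, hu⟩
    · exact absurd rfl hu
  refine ⟨_, E.clear hxp (fun u hu => hmax u (hxu u hu).2 (hxu u hu).1), ?_, ?_, ?_, ?_, ?_⟩
  · rw [clear_apply, hxp]; simp [hcpne, h1]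
  · intro j hj hlt
    rw [clear_apply]
    have : x j = L j c := by simp [hx, hj, hlt]
    rw [this, h1]; simp [hcpne]
  · intro i hi j hij
    have hip : i ≠ p := by rintro rfl; exact hpC i hcp hi
    rw [clear_apply]
    rw [hrow i hi (lt_of_le_of_lt (hCle i hi) hcp)]; simp [hip]
  · intro i hi q hq
    have hip : i ≠ p := by rintro rfl; exact hpC i hcp hi
    have hci : c ≠ i := by rintro rfl; exact hc hi
    have hxq : x q = 0 := by
      by_contra hne'
      obtain ⟨h2, h3⟩ := hxu q hne'
      exact h3 (hq.2.2.1 c hci h2)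
    refine ⟨hq.1, ?_, ?_, ?_⟩
    · rw [clear_apply, hxq, hq.2.1]; simp [hip]
    · intro i' hi' hlt
      rw [clear_apply, hxq, hq.2.2.1 i' hi' hlt]
      simp only [zero_mul, sub_zero, zero_add]
      split_ifs with h
      · subst h
        refine Finset.sum_eq_zero fun k _ => ?_
        by_cases hk : x k = 0
        · rw [hk, mul_zero]
        · obtain ⟨h2, h3⟩ := hxu k hk
          have hki : k ≠ i := by
            rintro rfl
            exact absurd (hCle k hi) (not_le.2 h2)
          rw [hq.2.2.1 k hki (lt_of_le_of_lt (hmax k h3 h2) hlt), zero_mul]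
      · rfl
    · intro j hj hlt
      rw [clear_apply, hq.2.2.2 j hj hlt,
        hrow i hi (lt_of_le_of_lt (hCle i hi) hcp)]
      simp [hip]
  · intro i hi hip'
    have hip : i ≠ p := by rintro rfl; exact hpC i hcp hi
    rw [clear_apply, hxp, hrow i hi hip']; simp [hip]

/-- `L` with the entries `(p, i)`, `i ∈ T`, replaced by zero -/
def kill (L : Matrix ι ι F) (p : ι) (T : Finset ι) : Matrix ι ι F :=
  Matrix.of fun j i => if j = p ∧ i ∈ T then 0 else L j i

theorem stepC {L : Matrix ι ι F} {c p : ι} (hcp : β c < β p) (h1 : L p c = 1)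
    (h0 : ∀ j, j ≠ p → β c < β j → L j c = 0) (T : Finset ι) :
    (∀ i ∈ T, i ≠ c ∧ (β c < β i ∨ (β c = β i ∧ Le β L c i))) → E β L (kill L p T) := by
  induction T using Finset.induction_on with
  | empty =>
    intro _
    have : kill L p ∅ = L := by
      ext j i; simp [kill]
    rw [this]; exact E.refl L
  | insert a T ha ih =>
    intro hT
    have hih := ih fun i hi => hT i (Finset.mem_insert_of_mem hi)
    have hcT : c ∉ T := fun h => (hT c (Finset.mem_insert_of_mem h)).1 rfl
    obtain ⟨hac, hcase⟩ := hT a (Finset.mem_insert_self a T)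
    set M := kill L p T with hM
    have hcol : ∀ j, M j c = L j c := by
      intro j; simp [hM, kill, hcT]
    refine hih.trans (E.trans (L' := M * transvection c a (-(M p a))) ?_ (E.of_up ?_))
    · rcases hcase with h | ⟨h, hle⟩
      · exact E.op2 h _
      · refine fix (hle.congr ?_) (Ne.symm hac) _
        intro j i hij hic
        have : i ∉ T := by
          intro hi
          rcases (hT i (Finset.mem_insert_of_mem hi)).2 with h' | ⟨h', _⟩
          · exact absurd h' (not_lt.2 hic.le)
          · exact absurd h'.symm hic.ne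
        simp [hM, kill, this]
    · intro j i hij
      rw [Matrix.sub_apply, sub_eq_zero]
      by_cases hia : i = a
      · subst hia
        rw [mul_transvection_apply_same, hcol]
        by_cases hj : j = p
        · subst hj
          rw [h1]; simp [kill]
        · have hcj : β c < β j := by
            rcases hcase with h | ⟨h, _⟩
            · exact h.trans hij
            · rw [h]; exact hij
          rw [h0 j hj hcj]
          simp [kill, hM, hj]
      · rw [mul_transvection_apply_of_ne _ _ _ _ hia]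
        simp [kill, hM, Finset.mem_insert, hia]

theorem step [WellFoundedLT B] {L : Matrix ι ι F} {C : Finset ι} (hS : St β L C)
    (hC : C ≠ Finset.univ) :
    ∃ (L' : Matrix ι ι F) (c : ι), c ∉ C ∧ E β L L' ∧ St β L' (insert c C) := by
  classical
  have hne : (Finset.univ \ C).Nonempty := by
    rw [Finset.nonempty_iff_ne_empty]
    intro h
    apply hC
    rw [Finset.sdiff_eq_empty_iff_subset] at h
    exact Finset.eq_univ_iff_forall.2 fun x => h (Finset.mem_univ x)
  obtain ⟨c0, hc0, hmin0⟩ := Finset.exists_min_image (Finset.univ \ C) β hne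
  have hc0C : c0 ∉ C := (Finset.mem_sdiff.1 hc0).2
  have hlow : ∀ i, β i < β c0 → i ∈ C := by
    intro i hi
    by_contra hiC
    exact absurd (hmin0 i (by simp [hiC])) (not_le.2 hi)
  obtain ⟨c, hcS, hcmin⟩ := exists_min (L := L) (β c0) (fun i hi => hS.clean i (hlow i hi))
    ((Finset.univ \ C).filter fun x => β x = β c0) ⟨c0, by simp [hc0C]⟩ (by simp)
  have hcC : c ∉ C := by
    have := (Finset.mem_filter.1 hcS).1
    exact (Finset.mem_sdiff.1 this).2
  have hcb : β c = β c0 := (Finset.mem_filter.1 hcS).2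
  have hclosed : ∀ c' ∈ insert c C, ∀ i, β i < β c' → i ∈ insert c C := by
    intro c' hc' i hi
    rcases Finset.mem_insert.1 hc' with rfl | hc'
    · exact Finset.mem_insert_of_mem (hlow i (hcb ▸ hi))
    · exact Finset.mem_insert_of_mem (hS.closed c' hc' i hi)
  by_cases hz : ∀ j, β c < β j → L j c = 0
  · refine ⟨L, c, hcC, E.refl L, hclosed, fun i hi => ?_⟩
    rcases Finset.mem_insert.1 hi with rfl | hi
    · exact Or.inl hz
    · exact hS.clean i hi
  push Not at hz
  obtain ⟨j0, hj0, hj0ne⟩ := hz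
  obtain ⟨p, hp, hpmax⟩ := Finset.exists_max_image
    (Finset.univ.filter fun j => β c < β j ∧ L j c ≠ 0) β ⟨j0, by simp [hj0, hj0ne]⟩
  simp only [Finset.mem_filter, Finset.mem_univ, true_and] at hp hpmax
  have hCle : ∀ i ∈ C, β i ≤ β c := by
    intro i hi
    by_contra hcon
    exact hcC (hS.closed i hi c (not_le.1 hcon))
  have hpC : ∀ x, β c < β x → x ∉ C := fun x hx hxC => hcC (hS.closed x hxC c hx)
  obtain ⟨L1, hE1, h1a, h1b, h1c, h1d⟩ := stepA hS hcC hp.1 hp.2
  have hS1 : St β L1 C := by
    refine ⟨hS.closed, fun i hi => ?_⟩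
    rcases hS.clean i hi with h | ⟨q, hq⟩
    · exact Or.inl fun j hj => by rw [h1c i hi j hj, h j hj]
    · exact Or.inr ⟨q, h1d i hi q hq⟩
  obtain ⟨L2, hE2, h2a, h2b, h2c, h2d, h2e⟩ := stepB hS1 hcC hp.1 h1a
    (fun j hj hlt => hpmax j ⟨hlt, fun h => hj (h1b j h)⟩) hCle
  have hagree : ∀ j i, β i < β j → β i < β c → L2 j i = L j i := by
    intro j i hij hic
    have hiC : i ∈ C := hlow i (hcb ▸ hic)
    rw [h2c i hiC j hij, h1c i hiC j hij]
  set T : Finset ι := Finset.univ.filter fun i => i ∉ C ∧ i ≠ c with hT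
  have hE3 : E β L2 (kill L2 p T) := by
    refine stepC hp.1 h2a h2b T ?_
    intro i hi
    simp only [hT, Finset.mem_filter, Finset.mem_univ, true_and] at hi
    refine ⟨hi.2, ?_⟩
    rcases lt_or_eq_of_le (hmin0 i (by simp [hi.1])) with h | h
    · left; rw [hcb]; exact h
    · right
      refine ⟨hcb.trans h, ?_⟩
      exact (hcmin i (by simp [hi.1, h])).congr hagree
  refine ⟨kill L2 p T, c, hcC, hE1.trans (hE2.trans hE3), hclosed, fun i hi => ?_⟩
  rcases Finset.mem_insert.1 hi with rfl | hi
  · right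
    refine ⟨p, hp.1, ?_, ?_, ?_⟩
    · simp [kill, hT, h2a]
    · intro i' hi' hlt
      by_cases hi'C : i' ∈ C
      · simp [kill, hT, hi'C, h2e i' hi'C hlt]
      · simp [kill, hT, hi'C, hi']
    · intro j hj hlt
      simp [kill, hj, h2b j hj hlt]
  · have hiT : i ∉ T := by simp [hT, hi]
    rcases hS1.clean i hi with h | ⟨q, hq⟩
    · left
      intro j hj
      simp [kill, hiT, h2c i hi j hj, h j hj]
    · right
      have hq2 := h2d i hi q hq
      refine ⟨q, hq2.1, ?_, ?_, ?_⟩
      · simp [kill, hiT, hq2.2.1]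
      · intro i' hi' hlt
        simp only [kill, Matrix.of_apply]
        split_ifs with h
        · rfl
        · exact hq2.2.2.1 i' hi' hlt
      · intro j hj hlt
        simp [kill, hiT, hq2.2.2.2 j hj hlt]

theorem all_clean [WellFoundedLT B] (k : ℕ) :
    ∀ (L : Matrix ι ι F) (C : Finset ι), St β L C → Fintype.card ι - C.card = k →
      ∃ L' : Matrix ι ι F, E β L L' ∧ St β L' Finset.univ := by
  induction k with
  | zero =>
    intro L C hS hk
    have : C = Finset.univ := by
      rw [← Finset.card_eq_iff_eq_univ]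
      have := Finset.card_le_univ C
      omega
    exact ⟨L, E.refl L, this ▸ hS⟩
  | succ k ih =>
    intro L C hS hk
    by_cases hC : C = Finset.univ
    · exact ⟨L, E.refl L, hC ▸ hS⟩
    · obtain ⟨L', c, hc, hE, hS'⟩ := step hS hC
      obtain ⟨L'', hE', hS''⟩ := ih L' (insert c C) hS' (by
        rw [Finset.card_insert_of_notMem hc]; omega)
      exact ⟨L'', hE.trans hE', hS''⟩

theorem exists_clean [WellFoundedLT B] (β : ι → B) (L : Matrix ι ι F) :
    ∃ L' : Matrix ι ι F, E β L L' ∧ ∀ i, Clean β L' i := by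
  obtain ⟨L', h, hS⟩ := all_clean (β := β) _ L ∅ ⟨by simp, by simp⟩ rfl
  exact ⟨L', h, fun i => hS.clean i (Finset.mem_univ i)⟩

end Pool.Agent.V11202.Rook
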