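import Mathlib

set_option linter.unusedSectionVars false

namespace Pool.Agent.V11202.Rook

open Matrix Finset

variable {ι : Type*} [Fintype ι] [DecidableEq ι] {B : Type*} [LinearOrder B] {F : Type*} [Field F]
variable {β : ι → B}

/-- weakly block upper triangular -/
def Up (β : ι → B) (x : Matrix ι ι F) : Prop := ∀ i j, β j < β i → x i j = 0

/-- strictly block upper triangular -/
def SUp (β : ι → B) (x : Matrix ι ι F) : Prop := ∀ i j, β j ≤ β i → x i j = 0

theorem SUp.up {x : Matrix ι ι F} (h : SUp β x) : Up β x := fun i j hij => h i j hij.le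

theorem Up.mul {x y : Matrix ι ι F} (hx : Up β x) (hy : Up β y) : Up β (x * y) := by
  intro i j hij
  rw [Matrix.mul_apply]
  refine Finset.sum_eq_zero fun k _ => ?_
  rcases lt_or_ge (β k) (β i) with h | h
  · rw [hx i k h, zero_mul]
  · rw [hy k j (lt_of_lt_of_le hij h), mul_zero]

theorem SUp.mul_up {x y : Matrix ι ι F} (hx : SUp β x) (hy : Up β y) : SUp β (x * y) := by
  intro i j hij
  rw [Matrix.mul_apply]
  refine Finset.sum_eq_zero fun k _ => ?_
  rcases le_or_gt (β k) (β i) with h | h
  · rw [hx i k h, zero_mul]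
  · rw [hy k j (lt_of_le_of_lt hij h), mul_zero]

theorem Up.mul_sup {x y : Matrix ι ι F} (hx : Up β x) (hy : SUp β y) : SUp β (x * y) := by
  intro i j hij
  rw [Matrix.mul_apply]
  refine Finset.sum_eq_zero fun k _ => ?_
  rcases lt_or_ge (β k) (β i) with h | h
  · rw [hx i k h, zero_mul]
  · rw [hy k j (hij.trans h), mul_zero]

theorem Up.add {x y : Matrix ι ι F} (hx : Up β x) (hy : Up β y) : Up β (x + y) := by
  intro i j hij; simp [hx i j hij, hy i j hij]

theorem Up.sub {x y : Matrix ι ι F} (hx : Up β x) (hy : Up β y) : Up β (x - y) := by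
  intro i j hij; simp [hx i j hij, hy i j hij]

theorem SUp.add {x y : Matrix ι ι F} (hx : SUp β x) (hy : SUp β y) : SUp β (x + y) := by
  intro i j hij; simp [hx i j hij, hy i j hij]

theorem SUp.sub {x y : Matrix ι ι F} (hx : SUp β x) (hy : SUp β y) : SUp β (x - y) := by
  intro i j hij; simp [hx i j hij, hy i j hij]

theorem SUp.zero : SUp β (0 : Matrix ι ι F) := fun _ _ _ => rfl
theorem Up.zero : Up β (0 : Matrix ι ι F) := fun _ _ _ => rfl

theorem Up.one : Up β (1 : Matrix ι ι F) := by
  intro i j hij
  have : i ≠ j := by rintro rfl; exact lt_irrefl _ hij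
  simp [this]

/-- the equivalence, on representing matrices modulo block upper triangular ones -/
def E (β : ι → B) (L L' : Matrix ι ι F) : Prop :=
  ∃ g h : Matrix ι ι F, Up β g ∧ Up β h ∧ SUp β (g * h - 1) ∧ Up β (L' - g * L * h)

theorem E.refl (L : Matrix ι ι F) : E β L L :=
  ⟨1, 1, Up.one, Up.one, by simpa using SUp.zero, by simpa using Up.zero⟩

theorem E.of_up {L L' : Matrix ι ι F} (h : Up β (L' - L)) : E β L L' :=
  ⟨1, 1, Up.one, Up.one, by simpa using SUp.zero, by simpa using h⟩

theorem E.trans {L L' L'' : Matrix ι ι F} (h1 : E β L L') (h2 : E β L' L'') : E β L L'' := by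
  obtain ⟨g, h, hg, hh, hs, hu⟩ := h1
  obtain ⟨g', h', hg', hh', hs', hu'⟩ := h2
  refine ⟨g' * g, h * h', hg'.mul hg, hh.mul hh', ?_, ?_⟩
  · have : g' * g * (h * h') - 1 = g' * (g * h - 1) * h' + (g' * h' - 1) := by
      noncomm_ring
    rw [this]
    exact ((hg'.mul_sup hs).mul_up hh').add hs'
  · have : L'' - g' * g * L * (h * h') = (L'' - g' * L' * h') + g' * (L' - g * L * h) * h' := by
      noncomm_ring
    rw [this]
    exact hu'.add ((hg'.mul hu).mul hh')

theorem up_transvection {u v : ι} (h : β u ≤ β v) (t : F) : Up β (transvection u v t) := by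
  intro i j hij
  have h1 : i ≠ j := by rintro rfl; exact lt_irrefl _ hij
  have h2 : ¬ (u = i ∧ v = j) := by
    rintro ⟨rfl, rfl⟩
    exact absurd h (not_le.2 hij)
  simp [transvection, h1, Matrix.single_apply, h2]

/-- adding a multiple of a row of a higher block -/
theorem E.op1 {L : Matrix ι ι F} {u v : ι} (h : β u < β v) (t : F) :
    E β L (transvection u v t * L) := by
  refine ⟨transvection u v t, 1, up_transvection h.le t, Up.one, ?_, by simpa using Up.zero⟩
  intro i j hij
  have h2 : ¬ (u = i ∧ v = j) := by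
    rintro ⟨rfl, rfl⟩
    exact absurd h (not_lt.2 hij)
  simp [transvection, Matrix.single_apply, h2]

/-- adding a multiple of a column of a lower block -/
theorem E.op2 {L : Matrix ι ι F} {u v : ι} (h : β u < β v) (t : F) :
    E β L (L * transvection u v t) := by
  refine ⟨1, transvection u v t, Up.one, up_transvection h.le t, ?_, by simpa using Up.zero⟩
  intro i j hij
  have h2 : ¬ (u = i ∧ v = j) := by
    rintro ⟨rfl, rfl⟩
    exact absurd h (not_lt.2 hij)
  simp [transvection, Matrix.single_apply, h2]

theorem E.op3 {L : Matrix ι ι F} {u v : ι} (huv : u ≠ v) (h : β u = β v) (t : F) :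
    E β L (transvection u v (-t) * L * transvection u v t) := by
  refine ⟨transvection u v (-t), transvection u v t, up_transvection h.le _,
    up_transvection h.le t, ?_, by simpa using Up.zero⟩
  rw [transvection_mul_transvection_same _ _ huv]
  simpa using SUp.zero

/-- `(p, c)` is a pivot -/
def Piv (β : ι → B) (L : Matrix ι ι F) (p c : ι) : Prop :=
  β c < β p ∧ L p c = 1 ∧ (∀ i, i ≠ c → β i < β p → L p i = 0) ∧
    (∀ j, j ≠ p → β c < β j → L j c = 0)

def Clean (β : ι → B) (L : Matrix ι ι F) (i : ι) : Prop :=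
  (∀ j, β i < β j → L j i = 0) ∨ ∃ p, Piv β L p i

inductive Le (β : ι → B) (L : Matrix ι ι F) : ι → ι → Prop
  | top {c c' : ι} : β c = β c' → (∀ i, β i < β c' → L c' i = 0) → Le β L c c'
  | lt {c c' d d' : ι} : β c = β c' → Piv β L c d → Piv β L c' d' → β d < β d' → Le β L c c'
  | eq {c c' d d' : ι} : β c = β c' → Piv β L c d → Piv β L c' d' → β d = β d' →
      Le β L d d' → Le β L c c'

theorem piv_uniq {L : Matrix ι ι F} {c d d' : ι} (h : Piv β L c d) (h' : Piv β L c d') :
    d = d' := by
  by_contra hne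
  have := h.2.2.1 d' (Ne.symm hne) h'.1
  rw [h'.2.1] at this
  exact one_ne_zero this

theorem fix_aux {L : Matrix ι ι F} {c c' d d' : ι} (hcc : β c = β c') (hne : c ≠ c')
    (h1 : Piv β L c d) (h2 : Piv β L c' d') (hdd : d ≠ d') (hle : β d ≤ β d') (t : F)
    (hE : E β L (L * transvection d d' t)) : E β L (L * transvection c c' t) := by
  refine hE.trans ((E.op3 (L := L * transvection d d' t) hne hcc t).trans (E.of_up ?_))
  have key : L * transvection c c' t - transvection c c' (-t) * (L * transvection d d' t) *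
      transvection c c' t = (L - transvection c c' (-t) * (L * transvection d d' t)) *
        transvection c c' t := by
    noncomm_ring
  rw [key]
  refine Up.mul ?_ (up_transvection hcc.le t)
  intro j i hij
  rw [Matrix.sub_apply, sub_eq_zero]
  -- entries of `L * transvection d d' t`
  have hL2 : ∀ a, (L * transvection d d' t) a i = if i = d' then L a d' + t * L a d else L a i := by
    intro a
    split_ifs with h
    · rw [h, mul_transvection_apply_same]
    · rw [mul_transvection_apply_of_ne]; exact h
  by_cases hj : j = c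
  · subst hj
    rw [transvection_mul_apply_same, hL2, hL2]
    split_ifs with h
    · subst h
      rw [h1.2.2.1 i (Ne.symm hdd) hij, h1.2.1, h2.2.1, h2.2.2.1 d hdd
        (lt_of_le_of_lt hle (hcc ▸ hij))]
      ring
    · rw [h2.2.2.1 i h (hcc ▸ hij)]; ring
  · rw [transvection_mul_apply_of_ne _ _ _ _ hj, hL2]
    split_ifs with h
    · subst h
      rw [h1.2.2.2 j hj (lt_of_le_of_lt hle hij)]; ring
    · rfl

theorem fix {L : Matrix ι ι F} {c c' : ι} (hle : Le β L c c') :
    c ≠ c' → ∀ t : F, E β L (L * transvection c c' t) := by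
  induction hle with
  | @top c c' hcc hrow =>
    intro hne t
    refine (E.op3 hne hcc t).trans (E.of_up ?_)
    have key : L * transvection c c' t - transvection c c' (-t) * L * transvection c c' t =
      (L - transvection c c' (-t) * L) * transvection c c' t := by noncomm_ring
    rw [key]
    refine Up.mul ?_ (up_transvection hcc.le t)
    intro j i hij
    rw [Matrix.sub_apply, sub_eq_zero]
    by_cases hj : j = c
    · subst hj
      rw [transvection_mul_apply_same, hrow i (hcc ▸ hij)]; ring
    · rw [transvection_mul_apply_of_ne _ _ _ _ hj]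
  | @lt c c' d d' hcc h1 h2 hlt =>
    intro hne t
    have hdd : d ≠ d' := by rintro rfl; exact lt_irrefl _ hlt
    exact fix_aux hcc hne h1 h2 hdd hlt.le t (E.op2 hlt t)
  | @eq c c' d d' hcc h1 h2 heq _ ih =>
    intro hne t
    have hdd : d ≠ d' := by
      rintro rfl
      have := h1.2.2.2 c' (Ne.symm hne) h2.1
      rw [h2.2.1] at this
      exact one_ne_zero this
    exact fix_aux hcc hne h1 h2 hdd heq.le t (ih hdd t)

theorem Piv.congr {L L' : Matrix ι ι F} {p c : ι} (h : Piv β L p c)
    (hL : ∀ j i, β i < β j → β i < β p → L' j i = L j i) : Piv β L' p c := by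
  refine ⟨h.1, ?_, ?_, ?_⟩
  · rw [hL p c h.1 h.1, h.2.1]
  · intro i hi hip
    rw [hL p i hip hip, h.2.2.1 i hi hip]
  · intro j hj hcj
    rw [hL j c hcj h.1, h.2.2.2 j hj hcj]

theorem Le.congr {L L' : Matrix ι ι F} {c c' : ι} (h : Le β L c c') :
    (∀ j i, β i < β j → β i < β c → L' j i = L j i) → Le β L' c c' := by
  induction h with
  | @top c c' hcc hrow =>
    intro hL
    exact Le.top hcc fun i hi => by rw [hL c' i hi (hcc ▸ hi), hrow i hi]
  | @lt c c' d d' hcc h1 h2 hlt =>
    intro hL
    exact Le.lt hcc (h1.congr hL) (h2.congr (fun j i a b => hL j i a (hcc ▸ b))) hlt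
  | @eq c c' d d' hcc h1 h2 heq _ ih =>
    intro hL
    exact Le.eq hcc (h1.congr hL) (h2.congr (fun j i a b => hL j i a (hcc ▸ b))) heq
      (ih fun j i a b => hL j i a (b.trans h1.1))

theorem Le.beta {L : Matrix ι ι F} {c c' : ι} (h : Le β L c c') : β c = β c' := by
  cases h <;> assumption

theorem Le.trans {L : Matrix ι ι F} {a b : ι} (h : Le β L a b) :
    ∀ {c : ι}, Le β L b c → Le β L a c := by
  induction h with
  | @top a b hab hrow =>
    intro c hbc
    cases hbc with
    | top hbc' hrow' => exact Le.top (hab.trans hbc') hrow'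
    | lt hbc' h1 h2 _ =>
      exfalso
      have := hrow _ h1.1
      rw [h1.2.1] at this
      exact one_ne_zero this
    | eq hbc' h1 h2 _ _ =>
      exfalso
      have := hrow _ h1.1
      rw [h1.2.1] at this
      exact one_ne_zero this
  | @lt a b d d' hab h1 h2 hlt =>
    intro c hbc
    cases hbc with
    | top hbc' hrow' => exact Le.top (hab.trans hbc') hrow'
    | lt hbc' h1' h2' hlt' =>
      have := piv_uniq h2 h1'
      subst this
      exact Le.lt (hab.trans hbc') h1 h2' (hlt.trans hlt')
    | eq hbc' h1' h2' heq' _ =>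
      have := piv_uniq h2 h1'
      subst this
      exact Le.lt (hab.trans hbc') h1 h2' (heq' ▸ hlt)
  | @eq a b d d' hab h1 h2 heq _ ih =>
    intro c hbc
    cases hbc with
    | top hbc' hrow' => exact Le.top (hab.trans hbc') hrow'
    | lt hbc' h1' h2' hlt' =>
      have := piv_uniq h2 h1'
      subst this
      exact Le.lt (hab.trans hbc') h1 h2' (heq ▸ hlt')
    | eq hbc' h1' h2' heq' hle' =>
      have := piv_uniq h2 h1'
      subst this
      exact Le.eq (hab.trans hbc') h1 h2' (heq.trans heq') (ih hle')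

theorem row_cases {L : Matrix ι ι F} {c : ι} (h : ∀ i, β i < β c → Clean β L i) :
    (∀ i, β i < β c → L c i = 0) ∨ ∃ d, Piv β L c d := by
  by_contra hcon
  push Not at hcon
  obtain ⟨⟨i, hi, hne⟩, hno⟩ := hcon
  rcases h i hi with h1 | ⟨p, hp⟩
  · exact hne (h1 c hi)
  · by_cases hpc : p = c
    · subst hpc; exact hno i hp
    · exact hne (hp.2.2.2 c (Ne.symm hpc) hi)

theorem total [WellFoundedLT B] {L : Matrix ι ι F} (b : B) :
    (∀ i, β i < b → Clean β L i) → ∀ c c', β c = b → β c' = b → Le β L c c' ∨ Le β L c' c := by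
  induction b using WellFoundedLT.induction with
  | ind b ih =>
    intro hcl c c' hc hc'
    rcases row_cases (c := c') (fun i hi => hcl i (hc' ▸ hi)) with h' | ⟨d', hd'⟩
    · exact Or.inl (Le.top (hc.trans hc'.symm) h')
    rcases row_cases (c := c) (fun i hi => hcl i (hc ▸ hi)) with h | ⟨d, hd⟩
    · exact Or.inr (Le.top (hc'.trans hc.symm) h)
    rcases lt_trichotomy (β d) (β d') with hlt | heq | hgt
    · exact Or.inl (Le.lt (hc.trans hc'.symm) hd hd' hlt)
    · rcases ih (β d) (hc ▸ hd.1) (fun i hi => hcl i (hi.trans (hc ▸ hd.1))) d d' rfl heq.symm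
        with h | h
      · exact Or.inl (Le.eq (hc.trans hc'.symm) hd hd' heq h)
      · exact Or.inr (Le.eq (hc'.trans hc.symm) hd' hd heq.symm h)
    · exact Or.inr (Le.lt (hc'.trans hc.symm) hd' hd hgt)

theorem exists_min [WellFoundedLT B] {L : Matrix ι ι F} (b : B)
    (hcl : ∀ i, β i < b → Clean β L i) (S : Finset ι) (hne : S.Nonempty)
    (hS : ∀ x ∈ S, β x = b) : ∃ c ∈ S, ∀ x ∈ S, Le β L c x := by
  induction hne using Finset.Nonempty.cons_induction with
  | singleton a =>
    refine ⟨a, by simp, fun x hx => ?_⟩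
    rw [Finset.mem_singleton] at hx
    subst hx
    have := hS x (by simp)
    rcases total b hcl x x this this with h | h <;> exact h
  | cons a s has hs ih =>
    obtain ⟨c, hc, hmin⟩ := ih (fun x hx => hS x (Finset.mem_cons_of_mem hx))
    have ha := hS a (Finset.mem_cons_self a s)
    have hcb := hS c (Finset.mem_cons_of_mem hc)
    rcases total b hcl a c ha hcb with h | h
    · refine ⟨a, Finset.mem_cons_self a s, fun x hx => ?_⟩
      rcases Finset.mem_cons.1 hx with rfl | hx
      · rcases total b hcl x x ha ha with h' | h' <;> exact h'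
      · exact h.trans (hmin x hx)
    · refine ⟨c, Finset.mem_cons_of_mem hc, fun x hx => ?_⟩
      rcases Finset.mem_cons.1 hx with rfl | hx
      · exact h
      · exact hmin x hx

end Pool.Agent.V11202.Rook
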