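import Pool.Agent.V11202.Rook.Core

set_option linter.unusedSectionVars false

namespace Pool.Agent.V11202.Rook

open Matrix Finset

variable {ι : Type*} [Fintype ι] [DecidableEq ι] {B : Type*} [LinearOrder B] {F : Type*} [Field F]
variable {β : ι → B}

theorem isUnit_one_add {s : Matrix ι ι F} (hs : SUp β s) : IsUnit (1 + s) := by
  classical
  rw [← mulVec_injective_iff_isUnit]
  have key : ∀ v : ι → F, (1 + s).mulVec v = 0 → v = 0 := by
    intro v hv
    by_contra hne
    have hne' : (Finset.univ.filter fun i => v i ≠ 0).Nonempty := by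
      by_contra hem
      rw [Finset.not_nonempty_iff_eq_empty] at hem
      apply hne
      funext i
      by_contra hi
      have : i ∈ (Finset.univ.filter fun i => v i ≠ 0) := by simpa using hi
      rw [hem] at this
      simp at this
    obtain ⟨i, hi, hmax⟩ := Finset.exists_max_image _ β hne'
    simp only [Finset.mem_filter, Finset.mem_univ, true_and] at hi hmax
    have h1 := congrFun hv i
    rw [Matrix.add_mulVec, Matrix.one_mulVec, Pi.add_apply, Pi.zero_apply] at h1
    have h2 : (s.mulVec v) i = 0 := by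
      rw [Matrix.mulVec, dotProduct]
      refine Finset.sum_eq_zero fun k _ => ?_
      by_cases hk : v k = 0
      · rw [hk, mul_zero]
      · rw [hs i k (hmax k hk), zero_mul]
    rw [h2, add_zero] at h1
    exact hi h1
  intro v w hvw
  have := key (v - w) (by rw [Matrix.mulVec_sub, sub_eq_zero]; exact hvw)
  exact sub_eq_zero.1 this

theorem up_inv {x : Matrix ι ι F} (hx : Up β x) (hu : IsUnit x) : Up β x⁻¹ := by
  let _ := hu.invertible
  have h : x.BlockTriangular β := fun i j hij => hx i j hij
  exact fun i j hij => (blockTriangular_inv_of_blockTriangular h) hij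

theorem E.units {g h : Matrix ι ι F} (hs : SUp β (g * h - 1)) : IsUnit g ∧ IsUnit h := by
  have h1 : IsUnit (g * h) := by
    have := isUnit_one_add hs
    rwa [add_sub_cancel] at this
  rw [Matrix.isUnit_iff_isUnit_det, Matrix.det_mul] at h1
  rw [Matrix.isUnit_iff_isUnit_det, Matrix.isUnit_iff_isUnit_det]
  exact ⟨isUnit_of_mul_isUnit_left h1, isUnit_of_mul_isUnit_right h1⟩

theorem E.symm {L L' : Matrix ι ι F} (hE : E β L L') : E β L' L := by
  obtain ⟨g, h, hg, hh, hs, hu⟩ := hE
  obtain ⟨ug, uh⟩ := E.units hs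
  have hg1 : g⁻¹ * g = 1 := Matrix.nonsing_inv_mul _ ((Matrix.isUnit_iff_isUnit_det _).1 ug)
  have hg2 : g * g⁻¹ = 1 := Matrix.mul_nonsing_inv _ ((Matrix.isUnit_iff_isUnit_det _).1 ug)
  have hh1 : h⁻¹ * h = 1 := Matrix.nonsing_inv_mul _ ((Matrix.isUnit_iff_isUnit_det _).1 uh)
  have hh2 : h * h⁻¹ = 1 := Matrix.mul_nonsing_inv _ ((Matrix.isUnit_iff_isUnit_det _).1 uh)
  have hgi := up_inv hg ug
  have hhi := up_inv hh uh
  refine ⟨g⁻¹, h⁻¹, hgi, hhi, ?_, ?_⟩
  · have h1 : SUp β (g⁻¹ * (g * h - 1) * g) := (hgi.mul_sup hs).mul_up hg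
    have h2 : g⁻¹ * (g * h - 1) * g = h * g - 1 := by
      have : g⁻¹ * (g * h - 1) * g = (g⁻¹ * g) * h * g - g⁻¹ * g := by noncomm_ring
      rw [this, hg1, one_mul]
    rw [h2] at h1
    have h3 : g⁻¹ * h⁻¹ - 1 = -(g⁻¹ * h⁻¹ * (h * g - 1)) := by
      have : g⁻¹ * h⁻¹ * (h * g - 1) = g⁻¹ * (h⁻¹ * h) * g - g⁻¹ * h⁻¹ := by noncomm_ring
      rw [this, hh1, mul_one, hg1]; abel
    rw [h3]
    intro i j hij
    rw [Matrix.neg_apply, ((hgi.mul hhi).mul_sup h1) i j hij, neg_zero]
  · have h1 : Up β (g⁻¹ * (L' - g * L * h) * h⁻¹) := (hgi.mul hu).mul hhi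
    have h2 : g⁻¹ * (L' - g * L * h) * h⁻¹ = g⁻¹ * L' * h⁻¹ - (g⁻¹ * g) * L * (h * h⁻¹) := by
      noncomm_ring
    rw [h2, hg1, hh2, one_mul, mul_one] at h1
    intro i j hij
    have := h1 i j hij
    rw [Matrix.sub_apply] at this ⊢
    rw [← neg_sub, this, neg_zero]

/-- restriction to a block -/
def restr (β : ι → B) (b : B) : (ι → F) →ₗ[F] (ι → F) where
  toFun v := fun i => if β i = b then v i else 0
  map_add' v w := by funext i; by_cases h : β i = b <;> simp [h]
  map_smul' c v := by funext i; by_cases h : β i = b <;> simp [h]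

def Fl (F : Type*) [Field F] (β : ι → B) (b : B) : Submodule F (ι → F) where
  carrier := {v | ∀ i, b < β i → v i = 0}
  add_mem' := by intro v w hv hw i hi; simp [hv i hi, hw i hi]
  zero_mem' := by intro i _; rfl
  smul_mem' := by intro c v hv i hi; simp [hv i hi]

def Phi (β : ι → B) (L : Matrix ι ι F) (b j : B) (S : Submodule F (ι → F)) :
    Submodule F (ι → F) :=
  (Fl F β j ⊓ S.comap (restr β j) ⊓ (Fl F β b).comap (Matrix.mulVecLin L)).map
    (restr β b ∘ₗ Matrix.mulVecLin L)

theorem mem_Phi {L : Matrix ι ι F} {b j : B} {S : Submodule F (ι → F)} {w : ι → F} :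
    w ∈ Phi β L b j S ↔ ∃ v : ι → F, v ∈ Fl F β j ∧ restr β j v ∈ S ∧ L.mulVec v ∈ Fl F β b ∧
      restr β b (L.mulVec v) = w := by
  simp only [Phi, Submodule.mem_map, Submodule.mem_inf, Submodule.mem_comap,
    Matrix.mulVecLin_apply, LinearMap.comp_apply]
  constructor
  · rintro ⟨v, ⟨⟨h1, h2⟩, h3⟩, h4⟩; exact ⟨v, h1, h2, h3, h4⟩
  · rintro ⟨v, h1, h2, h3, h4⟩; exact ⟨v, ⟨⟨h1, h2⟩, h3⟩, h4⟩

theorem Phi_mono {L : Matrix ι ι F} {b j : B} {S S' : Submodule F (ι → F)} (h : S ≤ S') :
    Phi β L b j S ≤ Phi β L b j S' := by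
  intro w hw
  rw [mem_Phi] at hw ⊢
  obtain ⟨v, h1, h2, h3, h4⟩ := hw
  exact ⟨v, h1, h h2, h3, h4⟩

def bd (β : ι → B) (g : Matrix ι ι F) : Matrix ι ι F :=
  Matrix.of fun i k => if β i = β k then g i k else 0

theorem bd_mul {x y : Matrix ι ι F} (hx : Up β x) (hy : Up β y) :
    bd β (x * y) = bd β x * bd β y := by
  ext i k
  simp only [bd, Matrix.of_apply, Matrix.mul_apply]
  by_cases h : β i = β k
  · rw [if_pos h]
    refine Finset.sum_congr rfl fun m _ => ?_
    by_cases hm : β i = β m
    · simp [hm, ← h]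
    · rw [if_neg hm, zero_mul]
      rcases lt_or_gt_of_ne hm with h' | h'
      · rw [hy m k (h ▸ h'), mul_zero]
      · rw [hx i m h', zero_mul]
  · rw [if_neg h]
    symm
    refine Finset.sum_eq_zero fun m _ => ?_
    by_cases hm : β i = β m
    · have : ¬ β m = β k := fun h' => h (hm.trans h')
      simp [this]
    · simp [hm]

theorem bd_one : bd β (1 : Matrix ι ι F) = 1 := by
  ext i k
  simp only [bd, Matrix.of_apply, Matrix.one_apply]
  by_cases h : i = k
  · simp [h]
  · simp [h]

theorem bd_of_sup {x : Matrix ι ι F} (hs : SUp β (x - 1)) : bd β x = 1 := by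
  ext i k
  simp only [bd, Matrix.of_apply]
  split_ifs with h
  · have := hs i k h.ge
    rw [Matrix.sub_apply, sub_eq_zero] at this
    exact this
  · have : i ≠ k := by rintro rfl; exact h rfl
    simp [this]

theorem up_mulVec {x : Matrix ι ι F} (hx : Up β x) {b : B} {w : ι → F} (hw : w ∈ Fl F β b) :
    x.mulVec w ∈ Fl F β b := by
  intro i hi
  rw [Matrix.mulVec, dotProduct]
  refine Finset.sum_eq_zero fun k _ => ?_
  rcases lt_or_ge b (β k) with h | h
  · rw [hw k h, mul_zero]
  · rw [hx i k (lt_of_le_of_lt h hi), zero_mul]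

theorem restr_mulVec {x : Matrix ι ι F} (hx : Up β x) {b : B} {w : ι → F} (hw : w ∈ Fl F β b) :
    restr β b (x.mulVec w) = (bd β x).mulVec (restr β b w) := by
  funext i
  simp only [restr, LinearMap.coe_mk, AddHom.coe_mk, Matrix.mulVec, dotProduct, bd,
    Matrix.of_apply]
  split_ifs with h
  · refine Finset.sum_congr rfl fun k _ => ?_
    by_cases hk : β k = b
    · simp [h, hk]
    · rw [if_neg hk, mul_zero]
      rcases lt_or_gt_of_ne hk with h' | h'
      · rw [hx i k (h ▸ h'), zero_mul]
      · rw [hw k h', mul_zero]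
  · symm
    refine Finset.sum_eq_zero fun k _ => ?_
    by_cases hk : β k = b
    · have : ¬ β i = β k := fun h' => h (h'.trans hk)
      simp [this]
    · simp [hk]

theorem E.main {L L' : Matrix ι ι F} (hE : E β L L') :
    ∃ R R' : Matrix ι ι F, R' * R = 1 ∧ (∀ b, ∀ w ∈ Fl F β b, restr β b w = w →
        restr β b (R.mulVec w) = R.mulVec w ∧ R.mulVec w ∈ Fl F β b) ∧
      ∀ b j, j < b → ∀ S : Submodule F (ι → F),
        (Phi β L b j S).map (Matrix.mulVecLin R) ≤ Phi β L' b j (S.map (Matrix.mulVecLin R)) := by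
  obtain ⟨g, h, hg, hh, hs, hu⟩ := hE
  obtain ⟨ug, uh⟩ := E.units hs
  have hh2 : h * h⁻¹ = 1 := Matrix.mul_nonsing_inv _ ((Matrix.isUnit_iff_isUnit_det _).1 uh)
  have hhi := up_inv hh uh
  have e1 : bd β g * bd β h = 1 := by rw [← bd_mul hg hh, bd_of_sup hs]
  have e2 : bd β h * bd β h⁻¹ = 1 := by rw [← bd_mul hh hhi, hh2, bd_one]
  have e3 : bd β h⁻¹ = bd β g := by
    calc bd β h⁻¹ = (bd β g * bd β h) * bd β h⁻¹ := by rw [e1, one_mul]
      _ = bd β g := by rw [mul_assoc, e2, mul_one]
  have e4 : bd β h * bd β g = 1 := by rw [← e3, e2]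
  refine ⟨bd β g, bd β h, e4, ?_, ?_⟩
  · intro b w hw hw'
    have h1 := restr_mulVec hg hw
    rw [hw'] at h1
    rw [← h1]
    refine ⟨?_, ?_⟩
    · funext i; simp only [restr, LinearMap.coe_mk, AddHom.coe_mk]; split_ifs <;> rfl
    · intro i hi
      simp only [restr, LinearMap.coe_mk, AddHom.coe_mk]
      rw [if_neg (ne_of_gt hi)]
  · intro b j hjb S
    rintro _ ⟨w, hw, rfl⟩
    obtain ⟨v, h1, h2, h3, h4⟩ := mem_Phi.1 hw
    rw [mem_Phi]
    have hL : ∀ i, j < β i → (L'.mulVec (h⁻¹.mulVec v)) i = (g.mulVec (L.mulVec v)) i := by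
      intro i hi
      have k1 : (L' - g * L * h).mulVec (h⁻¹.mulVec v) ∈ Fl F β j := up_mulVec hu (up_mulVec hhi h1)
      have k2 := k1 i hi
      rw [Matrix.sub_mulVec, Pi.sub_apply, sub_eq_zero] at k2
      rw [k2, Matrix.mulVec_mulVec, Matrix.mulVec_mulVec, mul_assoc, hh2, mul_one]
    have hFl : L'.mulVec (h⁻¹.mulVec v) ∈ Fl F β b := by
      intro i hi
      rw [hL i (hjb.trans hi)]
      exact up_mulVec hg h3 i hi
    refine ⟨h⁻¹.mulVec v, up_mulVec hhi h1, ?_, hFl, ?_⟩
    · rw [restr_mulVec hhi h1, e3]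
      exact ⟨_, h2, rfl⟩
    · rw [Matrix.mulVecLin_apply, ← h4, ← restr_mulVec hg h3]
      funext i
      simp only [restr, LinearMap.coe_mk, AddHom.coe_mk]
      split_ifs with hi
      · exact hL i (hi ▸ hjb)
      · rfl

/-- the composite invariants -/
def Inv (β : ι → B) (L : Matrix ι ι F) : B → Submodule F (ι → F) → List B → Submodule F (ι → F)
  | _, S, [] => S
  | j, S, b :: l => Inv β L b (Phi β L b j S) l

theorem Inv_mono {L : Matrix ι ι F} (l : List B) :
    ∀ {j : B} {S S' : Submodule F (ι → F)}, S ≤ S' → Inv β L j S l ≤ Inv β L j S' l := by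
  induction l with
  | nil => intro j S S' h; exact h
  | cons b l ih => intro j S S' h; exact ih (Phi_mono h)

theorem Inv_map {L L' R : Matrix ι ι F}
    (h : ∀ b j, j < b → ∀ S : Submodule F (ι → F),
        (Phi β L b j S).map (Matrix.mulVecLin R) ≤ Phi β L' b j (S.map (Matrix.mulVecLin R)))
    (l : List B) : ∀ (j : B) (S : Submodule F (ι → F)), List.IsChain (· < ·) (j :: l) →
      (Inv β L j S l).map (Matrix.mulVecLin R) ≤ Inv β L' j (S.map (Matrix.mulVecLin R)) l := by
  induction l with
  | nil => intro j S _; exact le_rfl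
  | cons b l ih =>
    intro j S hch
    rw [List.isChain_cons_cons] at hch
    exact (ih b _ hch.2).trans (Inv_mono l (h b j hch.1 S))

/-- coordinate subspaces -/
def SA (F : Type*) [Field F] (A : Finset ι) : Submodule F (ι → F) where
  carrier := {v | ∀ i, i ∉ A → v i = 0}
  add_mem' := by intro v w hv hw i hi; simp [hv i hi, hw i hi]
  zero_mem' := by intro i _; rfl
  smul_mem' := by intro c v hv i hi; simp [hv i hi]

theorem finrank_SA (A : Finset ι) : Module.finrank F (SA F A) = A.card := by
  classical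
  let f : (A → F) →ₗ[F] (ι → F) :=
    { toFun := fun u i => if h : i ∈ A then u ⟨i, h⟩ else 0
      map_add' := by intro u v; funext i; by_cases h : i ∈ A <;> simp [h]
      map_smul' := by intro c u; funext i; by_cases h : i ∈ A <;> simp [h] }
  have hf : Function.Injective f := by
    intro u v huv
    funext ⟨i, hi⟩
    have := congrFun huv i
    simpa [f, hi] using this
  have hr : LinearMap.range f = SA F A := by
    apply le_antisymm
    · rintro _ ⟨u, rfl⟩ i hi
      simp [f, hi]
    · intro v hv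
      refine ⟨fun i => v i, ?_⟩
      funext i
      by_cases h : i ∈ A
      · simp [f, h]
      · simp [f, h, hv i h]
  rw [← hr, LinearMap.finrank_range_of_inj hf]
  simp

theorem finrank_Inv_le {L L' : Matrix ι ι F} (hE : E β L L') (j : B) (l : List B)
    (hch : List.IsChain (· < ·) (j :: l)) :
    Module.finrank F (Inv β L j (SA F (Finset.univ.filter fun i => β i = j)) l) ≤
      Module.finrank F (Inv β L' j (SA F (Finset.univ.filter fun i => β i = j)) l) ∧
    Module.finrank F (Inv β L j (SA F ∅) l) ≤ Module.finrank F (Inv β L' j (SA F ∅) l) := by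
  obtain ⟨R, R', hR, hR1, hR2⟩ := hE.main
  have key : ∀ S S' : Submodule F (ι → F), S.map (Matrix.mulVecLin R) ≤ S' →
      Module.finrank F (Inv β L j S l) ≤ Module.finrank F (Inv β L' j S' l) := by
    intro S S' hS
    have h1 : (Inv β L j S l).map (Matrix.mulVecLin R) ≤ Inv β L' j S' l :=
      (Inv_map hR2 l j S hch).trans (Inv_mono l hS)
    have h2 : ((Inv β L j S l).map (Matrix.mulVecLin R)).map (Matrix.mulVecLin R') =
        Inv β L j S l := by
      rw [← Submodule.map_comp, ← Matrix.mulVecLin_mul, hR, Matrix.mulVecLin_one, Submodule.map_id]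
    calc Module.finrank F (Inv β L j S l)
        = Module.finrank F (((Inv β L j S l).map (Matrix.mulVecLin R)).map
            (Matrix.mulVecLin R')) := by rw [h2]
      _ ≤ Module.finrank F ((Inv β L j S l).map (Matrix.mulVecLin R)) :=
          Submodule.finrank_map_le _ _
      _ ≤ _ := Submodule.finrank_mono h1
  refine ⟨key _ _ ?_, key _ _ ?_⟩
  · rintro _ ⟨w, hw, rfl⟩
    have hw1 : w ∈ Fl F β j := by
      intro i hi
      exact hw i (by simp [ne_of_gt hi])
    have hw2 : restr β j w = w := by
      funext i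
      simp only [restr, LinearMap.coe_mk, AddHom.coe_mk]
      split_ifs with h
      · rfl
      · exact (hw i (by simp [h])).symm
    have h3 := (hR1 j w hw1 hw2).1
    intro i hi
    rw [Matrix.mulVecLin_apply, ← h3]
    simp only [restr, LinearMap.coe_mk, AddHom.coe_mk]
    rw [if_neg (by simpa using hi)]
  · rintro _ ⟨w, hw, rfl⟩
    have : w = 0 := by funext i; exact hw i (by simp)
    rw [this]
    simp

theorem finrank_Inv_eq {L L' : Matrix ι ι F} (hE : E β L L') (j : B) (l : List B)
    (hch : List.IsChain (· < ·) (j :: l)) :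
    Module.finrank F (Inv β L j (SA F (Finset.univ.filter fun i => β i = j)) l) =
      Module.finrank F (Inv β L' j (SA F (Finset.univ.filter fun i => β i = j)) l) ∧
    Module.finrank F (Inv β L j (SA F ∅) l) = Module.finrank F (Inv β L' j (SA F ∅) l) :=
  ⟨le_antisymm (finrank_Inv_le hE j l hch).1 (finrank_Inv_le hE.symm j l hch).1,
    le_antisymm (finrank_Inv_le hE j l hch).2 (finrank_Inv_le hE.symm j l hch).2⟩

/-- a rook placement, abstractly -/
structure Rk (β : ι → B) (D : Finset (ι × ι)) : Prop where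
  lt : ∀ i p, (i, p) ∈ D → β i < β p
  row : ∀ i p q, (i, p) ∈ D → (i, q) ∈ D → p = q
  col : ∀ i k p, (i, p) ∈ D → (k, p) ∈ D → i = k

/-- the matrix of the form attached to `D` -/
def LD (F : Type*) [Field F] (D : Finset (ι × ι)) : Matrix ι ι F :=
  Matrix.of fun p i => if (i, p) ∈ D then 1 else 0

def nxt (β : ι → B) (D : Finset (ι × ι)) (b j : B) (A : Finset ι) : Finset ι :=
  by
    classical
    exact Finset.univ.filter fun p => β p = b ∧ ∃ i, (i, p) ∈ D ∧ (β i < j ∨ (β i = j ∧ i ∈ A))

theorem mem_nxt {D : Finset (ι × ι)} {b j : B} {A : Finset ι} {p : ι} :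
    p ∈ nxt β D b j A ↔ β p = b ∧ ∃ i, (i, p) ∈ D ∧ (β i < j ∨ (β i = j ∧ i ∈ A)) := by
  simp [nxt]

theorem Phi_LD {D : Finset (ι × ι)} (hD : Rk β D) (b j : B) (A : Finset ι) :
    Phi β (LD F D) b j (SA F A) = SA F (nxt β D b j A) := by
  classical
  have hLD : ∀ (v : ι → F) (p : ι), ((LD F D).mulVec v) p = ∑ i, if (i, p) ∈ D then v i else 0 := by
    intro v p
    simp [LD, Matrix.mulVec, dotProduct]
  apply le_antisymm
  · intro w hw
    obtain ⟨v, h1, h2, h3, h4⟩ := mem_Phi.1 hw
    intro p hp
    rw [← h4]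
    simp only [restr, LinearMap.coe_mk, AddHom.coe_mk]
    split_ifs with hb
    · rw [hLD]
      refine Finset.sum_eq_zero fun i _ => ?_
      split_ifs with hi
      · rw [mem_nxt] at hp
        push Not at hp
        obtain ⟨hge, hni⟩ := hp hb i hi
        rcases lt_or_eq_of_le hge with hlt | heq
        · exact h1 i hlt
        · have := h2 i (hni heq.symm)
          simp only [restr, LinearMap.coe_mk, AddHom.coe_mk] at this
          rwa [if_pos heq.symm] at this
      · rfl
    · rfl
  · intro w hw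
    rw [mem_Phi]
    set v : ι → F := fun i => ∑ p ∈ nxt β D b j A, if (i, p) ∈ D then w p else 0 with hv
    have hLv : (LD F D).mulVec v = w := by
      funext q
      rw [hLD]
      by_cases hq : q ∈ nxt β D b j A
      · obtain ⟨hqb, i0, hi0, hi0'⟩ := mem_nxt.1 hq
        rw [Finset.sum_eq_single i0]
        · rw [if_pos hi0, hv]
          simp only
          rw [Finset.sum_eq_single q]
          · rw [if_pos hi0]
          · intro p _ hpq
            rw [if_neg]
            intro hp
            exact hpq (hD.row i0 p q hp hi0)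
          · intro h; exact absurd hq h
        · intro i _ hne
          rw [if_neg]
          intro hi
          exact hne (hD.col i i0 q hi hi0)
        · intro h; exact absurd (Finset.mem_univ _) h
      · rw [hw q hq]
        refine Finset.sum_eq_zero fun i _ => ?_
        split_ifs with hi
        · rw [hv]
          refine Finset.sum_eq_zero fun p hp => ?_
          rw [if_neg]
          intro hip
          have := hD.row i p q hip hi
          subst this
          exact hq hp
        · rfl
    have hv0 : ∀ i, v i ≠ 0 → β i < j ∨ (β i = j ∧ i ∈ A) := by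
      intro i hi
      obtain ⟨p, hp, hne⟩ := Finset.exists_ne_zero_of_sum_ne_zero hi
      have hip : (i, p) ∈ D := by
        by_contra hcon
        exact hne (if_neg hcon)
      obtain ⟨_, k, hk, hk'⟩ := mem_nxt.1 hp
      have := hD.col i k p hip hk
      subst this
      exact hk'
    refine ⟨v, ?_, ?_, ?_, ?_⟩
    · intro i hi
      by_contra hne
      rcases hv0 i hne with h | ⟨h, _⟩
      · exact lt_asymm h hi
      · exact absurd h (ne_of_gt hi)
    · intro i hi
      simp only [restr, LinearMap.coe_mk, AddHom.coe_mk]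
      split_ifs with h
      · by_contra hne
        rcases hv0 i hne with h' | ⟨_, h'⟩
        · exact absurd h (ne_of_lt h')
        · exact hi h'
      · rfl
    · rw [hLv]
      intro i hi
      apply hw
      rw [mem_nxt]
      rintro ⟨h, _⟩
      exact absurd h (ne_of_gt hi)
    · rw [hLv]
      funext i
      simp only [restr, LinearMap.coe_mk, AddHom.coe_mk]
      split_ifs with h
      · rfl
      · symm; apply hw
        rw [mem_nxt]
        rintro ⟨h', _⟩
        exact h h'

def setI (β : ι → B) (D : Finset (ι × ι)) : B → Finset ι → List B → Finset ι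
  | _, A, [] => A
  | j, A, b :: l => setI β D b (nxt β D b j A) l

theorem Inv_LD {D : Finset (ι × ι)} (hD : Rk β D) (l : List B) :
    ∀ (j : B) (A : Finset ι), Inv β (LD F D) j (SA F A) l = SA F (setI β D j A l) := by
  induction l with
  | nil => intro j A; rfl
  | cons b l ih =>
    intro j A
    rw [Inv, Phi_LD hD, ih]
    rfl

/-- `x` has a path along `D` through the blocks of `l` -/
def Path (β : ι → B) (D : Finset (ι × ι)) : List B → ι → Prop
  | [], _ => True
  | b :: l, x => ∃ y, (x, y) ∈ D ∧ β y = b ∧ Path β D l y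

open Classical in
theorem card_setI {D : Finset (ι × ι)} (hD : Rk β D) (l : List B) :
    ∀ (j : B) (A A' : Finset ι), A ⊆ A' → (∀ x ∈ A', β x = j) →
      (setI β D j A' l).card = (setI β D j A l).card +
        ((A' \ A).filter fun x => Path β D l x).card := by
  induction l with
  | nil =>
    intro j A A' h _
    simp only [setI, Path, Finset.filter_true]
    rw [Finset.card_sdiff_of_subset h]
    have := Finset.card_le_card h
    omega
  | cons b l ih =>
    intro j A A' h hA'
    simp only [setI]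
    rw [ih b (nxt β D b j A) (nxt β D b j A') ?_ ?_]
    · congr 1
      symm
      refine Finset.card_bij (fun x hx => Classical.choose (Finset.mem_filter.1 hx).2) ?_ ?_ ?_
      · intro x hx
        have hs := Classical.choose_spec (Finset.mem_filter.1 hx).2
        set y := Classical.choose (Finset.mem_filter.1 hx).2
        have hxA := Finset.mem_sdiff.1 (Finset.mem_filter.1 hx).1
        rw [Finset.mem_filter, Finset.mem_sdiff]
        refine ⟨⟨mem_nxt.2 ⟨hs.2.1, x, hs.1, Or.inr ⟨hA' x hxA.1, hxA.1⟩⟩, ?_⟩, hs.2.2⟩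
        intro hy
        obtain ⟨_, i, hi, hi'⟩ := mem_nxt.1 hy
        have := hD.col i x y hi hs.1
        subst this
        rcases hi' with h' | ⟨_, h'⟩
        · exact absurd (hA' i hxA.1) (ne_of_lt h')
        · exact hxA.2 h'
      · intro x hx x' hx' heq
        have hs := Classical.choose_spec (Finset.mem_filter.1 hx).2
        have hs' := Classical.choose_spec (Finset.mem_filter.1 hx').2
        rw [← heq] at hs'
        exact hD.col x x' _ hs.1 hs'.1
      · intro y hy
        rw [Finset.mem_filter, Finset.mem_sdiff] at hy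
        obtain ⟨⟨hy1, hy2⟩, hyP⟩ := hy
        obtain ⟨hyb, i, hi, hi'⟩ := mem_nxt.1 hy1
        have hi2 : β i = j ∧ i ∈ A' := by
          rcases hi' with h' | h'
          · exact absurd (mem_nxt.2 ⟨hyb, i, hi, Or.inl h'⟩) hy2
          · exact h'
        have hi3 : i ∉ A := fun hiA => hy2 (mem_nxt.2 ⟨hyb, i, hi, Or.inr ⟨hi2.1, hiA⟩⟩)
        have hmem : i ∈ (A' \ A).filter fun x => Path β D (b :: l) x := by
          rw [Finset.mem_filter, Finset.mem_sdiff]
          exact ⟨⟨hi2.2, hi3⟩, y, hi, hyb, hyP⟩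
        refine ⟨i, hmem, ?_⟩
        have hs := Classical.choose_spec (Finset.mem_filter.1 hmem).2
        exact hD.row i _ _ hs.1 hi
    · intro p hp
      rw [mem_nxt] at hp ⊢
      obtain ⟨h1, i, h2, h3⟩ := hp
      refine ⟨h1, i, h2, ?_⟩
      rcases h3 with h3 | ⟨h3, h4⟩
      · exact Or.inl h3
      · exact Or.inr ⟨h3, h h4⟩
    · intro x hx
      exact (mem_nxt.1 hx).1

theorem path_chain {D : Finset (ι × ι)} (hD : Rk β D) (l : List B) :
    ∀ x, Path β D l x → List.IsChain (· < ·) (β x :: l) := by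
  induction l with
  | nil => intro x _; exact List.isChain_singleton _
  | cons b l ih =>
    rintro x ⟨y, hxy, hyb, hP⟩
    rw [List.isChain_cons_cons]
    refine ⟨hyb ▸ hD.lt x y hxy, ?_⟩
    have := ih y hP
    rwa [hyb] at this

open Classical in
theorem card_path {D D' : Finset (ι × ι)} (hD : Rk β D) (hD' : Rk β D')
    (hE : E β (LD F D) (LD F D')) (j : B) (l : List B) :
    (Finset.univ.filter fun x => β x = j ∧ Path β D l x).card =
      (Finset.univ.filter fun x => β x = j ∧ Path β D' l x).card := by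
  by_cases hch : List.IsChain (· < ·) (j :: l)
  · obtain ⟨h1, h2⟩ := finrank_Inv_eq hE j l hch
    rw [Inv_LD hD, Inv_LD hD', finrank_SA, finrank_SA] at h1 h2
    have k1 := card_setI hD l j ∅ (Finset.univ.filter fun i => β i = j) (Finset.empty_subset _)
      (by simp)
    have k2 := card_setI hD' l j ∅ (Finset.univ.filter fun i => β i = j) (Finset.empty_subset _)
      (by simp)
    rw [Finset.sdiff_empty, Finset.filter_filter] at k1 k2
    omega
  · have e : ∀ {D : Finset (ι × ι)}, Rk β D →
        (Finset.univ.filter fun x => β x = j ∧ Path β D l x) = ∅ := by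
      intro D hD
      rw [Finset.filter_eq_empty_iff]
      rintro x _ ⟨h1, h2⟩
      exact hch (h1 ▸ path_chain hD l x h2)
    rw [e hD, e hD']

end Pool.Agent.V11202.Rook
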